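import Pool.Agent.N127.TW.Cone

set_option autoImplicit false

/-! # Local topological zeta functions of germs which are iterated cones

We consider the smallest class of germs `g ∈ ℂ[[x_1, ..., x_N]]` (`ConeGerm`) with the following two
properties.

* It contains the germs which become, in suitable formal coordinates and up to a unit, polynomials of
  the class `𝓢` (`SusZeta`): the iterated suspensions `z ^ k + F`, and powers `F ^ k`, starting from the
  polynomials `h(x_1, x_2) (f_0(x_1, x_2) + ∑_j w_j f_j(x_1, x_2)) ^ a`. In particular it contains
  the smooth germs and the reduced germs of corank at most two.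
* It contains `g` if `g` becomes, in suitable formal coordinates and up to a unit,
  `G = h(x) ∏_t (∑_j y_{t,j} f_{t,j}(x)) ^ a_t`, where `h` and the `f_{t,j}` are forms in
  `x = (x_0, ..., x_n)`, and if the germs of `G` at the points `(q, 0)`, `q ≠ 0`, are in the class.

The `e`-th twisted local topological zeta functions of these germs (`e = 1` is the usual one) are
computed by blowing up the space `x = 0`, see `ConeGerm`.

The theorem: every pole `s₀` of the zeta function is a root of the local (formal) Bernstein-Sato
polynomial `b` of `g`, provided that for each cone which occurs either `s₀ ≠ -(n + 1) / d` (`d` is the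
degree of `G` in `x`), or `n + 1` of the generators of the ideal `h ∏_t (f_{t,j})_j ^ a_t` have a nonzero
Jacobian determinant, or `n = 2` and the linear system `V` spanned by these generators is composed with
a pencil and satisfies one of the conditions `RootCond` (in `Pool.Agent.N127.PB.CondDefs`); for instance
if it contains `h' G(P, Q)` and `h' G'(P, Q)`, where the curves `P = 0` and `Q = 0` of degree `≥ 3` meet
transversally, `h'` is any form, and `G(P, Q) / G'(P, Q)` is not constant. By the theorem of Malgrange
and Kashiwara, `exp(2 π i s₀)` is then an eigenvalue of the monodromy at some point near the origin.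

Proof. A functional equation of `g` gives one for `G`, first with formal power series coefficients, and,
since `G` is homogeneous, a global one (`isB_of_germ`). After division by `∏_t ∏_{i ≤ a_t} (a_t s + i)` it
gives a functional equation of the ideal `h ∏_t (f_{t,j})_j ^ a_t` (`functionalEq_strong`); from this the
root `-(n + 1) / d` is deduced as in `generic_root` and `root_ideal`. The zeta functions at the points
with `x ≠ 0` are regular at `s₀`, if `b(s₀) ≠ 0`, by induction. -/

namespace Pool.Agent.Results.MP_aa7fc1_ag.ConeGerms

open Pool.Agent.N127.TW
open Pool.Agent.Y229.PS (IsFormalBFunction)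

/-- **The strong monodromy conjecture for iterated cones (local form).** Let `g` be a germ with the
`e`-th twisted local topological zeta function `Z` (`ConeGerm`; `e ≥ 1`, the usual one is `e = 1`), and
let `b` satisfy a functional equation `b(s) g ^ s = P(s) g ^ (s + 1)`, where `P` is a differential
operator with formal power series coefficients. Then each pole `s₀` of `Z` is a root of `b`, if the
conditions in `ConeGerm` are satisfied for `s₀`. -/
theorem result {N : ℕ} (g : MvPowerSeries (Fin N) ℂ) (b : Polynomial ℂ)
    (hb : IsFormalBFunction g b) (e : ℕ) (he : 1 ≤ e) (s₀ : ℂ) (Z : RatFunc ℂ)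
    (hZ : ConeGerm e s₀ g Z) (hs₀ : Z.denom.eval s₀ = 0) : b.eval s₀ = 0 := by
  by_contra hne
  exact Pool.Agent.W574.SM.Reg_denom s₀ _ (hZ.reg he hne hb) hs₀

end Pool.Agent.Results.MP_aa7fc1_ag.ConeGerms
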