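import Pool.Agent.N101.CB.TopFin

set_option autoImplicit false

/-! # The monodromy conjecture for local topological zeta functions: cubic polynomials suffice

For every non-constant polynomial `f` in `n` variables we construct a cubic polynomial `F` in
`n + 2 κ` variables, of the form `q_0(x) + ∑_k t_k q_k(x)` with polynomials `q_0, q_k` of degree at most
two, all of whose monomials are squarefree (`Cub F`), such that the conjecture for `F` implies the
conjecture for `f`. So the conjecture holds for all polynomials (germs of polynomials at the origin) if it holds for these cubic polynomials.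
(For the Jacobian conjecture the reduction to cubic maps is a theorem of Bass, Connell and Wright.)

Construction. Let `c x ^ (a + b)` be a monomial of `f`. The polynomial
`f + (t + c x ^ b) (w - x ^ a) = (f - c x ^ (a + b)) + c x ^ b w + t (w - x ^ a)` is the image of `f + t w` by the
automorphism `t ↦ t + c x ^ b`, `w ↦ w - x ^ a`. After finitely many steps of this kind (`κ` of them) all
monomials are squarefree, of degree at most one in the variables `t` and at most two in the others.

Zeta functions. By a classification of the jets of `f + t w` the motivic zeta function of `f + t w` is an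
explicit function of that of `f`: a representation of `Z_f` as a polynomial in the
`F_(N, ν) = (𝕃 - 1) 𝕃 ^ (-ν) T ^ N / (1 - 𝕃 ^ (-ν) T ^ N)` gives one of `Z_(f + t w)`, with
`F_(N, ν + N)` in place of `F_(N, ν)`. The topological zeta function is the specialisation
`F_(N, ν) ↦ 1 / (N s + ν)`, `[V] ↦ χ(V)`; for it we obtain the exact formula
`(s + κ) ((s + 1) Z_F(s) - 1) = s ((s + κ + 1) Z_f(s + κ) - 1)`. So the poles `≠ -1` of `Z_f`, shifted by
`κ`, are poles of `Z_F`.

Bernstein-Sato polynomials. If `(s + 1) c(s)` satisfies the functional equation of `f`, then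
`(s + 1) c(s + κ)` satisfies the one of `F`. -/

namespace Pool.Agent.Results.MP_aa7fc1_ag.CubicPolynomials

open MvPolynomial Pool.Agent.W428.MOT Pool.Agent.N101.CB
open Pool.Agent.H628R4.TP (IsLocalBFunction)

/-- `R` is a topological zeta function of `f` at the origin, for the ring homomorphism `χ : 𝓜 → ℂ` with
`χ(𝕃) = 1`, for instance the Euler characteristic: the motivic zeta function
`zt f {0} = ∑_N [X_N] 𝕃 ^ (-n N) T ^ N`, `X_N` the variety of the `N`-jets with origin `0` with `ord f = N`, is a
polynomial `Q` in the `F_(N, ν) = (𝕃 - 1) 𝕃 ^ (-ν) T ^ N / (1 - 𝕃 ^ (-ν) T ^ N)`, `N, ν ≥ 1`, with coefficients in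
`𝓜`, and `R = (χ Q)(1 / (N s + ν))`. By the formula with an embedded resolution the usual topological
zeta function has this property. -/
def IsTopZeta (χ : MK ℂ →+* ℂ) {n : ℕ} (f : MvPolynomial (Fin n) ℂ) (R : RatFunc ℂ) : Prop :=
  IsTop χ (zt f {0}) R

/-- The conjecture for `f`: for every pole `s` of a local topological zeta function of `f` and every polynomial
`b` with a local functional equation `b(s) f ^ s = P(s) f ^ (s + 1)`, in particular for the local Bernstein-Sato
polynomial, `b` has a root in `s + ℤ`. By the theorem of Malgrange and Kashiwara this means that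
`exp(2 π i s)` is an eigenvalue of the monodromy of `f` at a point of `f ^ (-1)(0)` near `0`. -/
def Conj (χ : MK ℂ →+* ℂ) {n : ℕ} (f : MvPolynomial (Fin n) ℂ) : Prop :=
  ∀ R : RatFunc ℂ, IsTopZeta χ f R → ∀ s : ℂ, ¬ Reg R s →
    ∀ b : Polynomial ℂ, IsLocalBFunction f b → ∃ k : ℤ, b.eval (s + k) = 0

/-- **Cubic polynomials suffice.** Let `χ : 𝓜 → ℂ` be a ring homomorphism with `χ(𝕃) = 1`.

First part: for every non-constant `f` with `f(0) = 0` in `n` variables there are `κ` and a cubic `F` with
`Cub F` in `m = n + 2 κ` variables, non-constant and with `F(0) = 0`, such that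
(1) for every topological zeta function `R` of `f` there is a topological zeta function `R'` of `F` with
`(s + κ) ((s + 1) R'(s) - 1) = s ((s + κ + 1) R(s + κ) - 1)`, and if `s ≠ -1` is a pole of `R` then
`s - κ` is a pole of `R'`;
(2) a local functional equation of `f` with `(s + 1) c(s)` gives one of `F` with `(s + 1) c(s + κ)`;
(3) the conjecture for `F` implies the conjecture for `f`.

Second part: the conjecture holds for all non-constant polynomials with `f(0) = 0`, in any number of variables, if
and only if it holds for those with `Cub f`. -/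
theorem result (χ : MK ℂ →+* ℂ) (hχ : χ ((Lu ℂ : (MK ℂ)ˣ) : MK ℂ) = 1) :
    (∀ {n : ℕ} (f : MvPolynomial (Fin n) ℂ), f.totalDegree ≠ 0 → constantCoeff f = 0 →
      ∃ (κ m : ℕ) (F : MvPolynomial (Fin m) ℂ), m = n + 2 * κ ∧ Cub F ∧ F.totalDegree ≠ 0 ∧ constantCoeff F = 0 ∧
        (∀ R : RatFunc ℂ, IsTopZeta χ f R → ∃ R' : RatFunc ℂ, IsTopZeta χ F R' ∧
          (RatFunc.X + (κ : RatFunc ℂ)) * ((RatFunc.X + 1) * R' - 1) =
            RatFunc.X * ((RatFunc.X + (κ : RatFunc ℂ) + 1) * shR (κ : ℂ) R - 1) ∧
          ∀ s : ℂ, s ≠ -1 → ¬ Reg R s → ¬ Reg R' (s - κ)) ∧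
        (∀ c : Polynomial ℂ, IsLocalBFunction f ((Polynomial.X + 1) * c) →
          IsLocalBFunction F ((Polynomial.X + 1) * c.comp (Polynomial.X + Polynomial.C (κ : ℂ)))) ∧
        (Conj χ F → Conj χ f)) ∧
    ((∀ (n : ℕ) (f : MvPolynomial (Fin n) ℂ), f.totalDegree ≠ 0 → constantCoeff f = 0 →
        Conj χ f) ↔
      ∀ (n : ℕ) (f : MvPolynomial (Fin n) ℂ), Cub f → f.totalDegree ≠ 0 → constantCoeff f = 0 →
        Conj χ f) := by
  refine ⟨fun {n} f hf hf0 => ?_, fun h n f _ => h n f, fun h n f hf hf0 => ?_⟩
  · obtain ⟨κ, m, F, hm, hF, hl⟩ := exists_cubic f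
    exact ⟨κ, m, F, hm, hF, hl.deg hf, hl.const hf0, hl.ltop hf0 χ hχ,
      fun c hc => (hl.lb hf hf0 _ hc).2 c rfl, ltw_of hχ hf hf0 hl⟩
  · obtain ⟨κ, m, F, -, hF, hl⟩ := exists_cubic f
    exact ltw_of hχ hf hf0 hl (h m F hF (hl.deg hf) (hl.const hf0))

end Pool.Agent.Results.MP_aa7fc1_ag.CubicPolynomials
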