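import Pool.Agent.N103.V.Final

set_option autoImplicit false

/-!
# The strong monodromy conjecture for the local topological zeta functions of iterated suspensions

Let `𝓢` be the least class of polynomials (with a point) which contains

* the polynomials at smooth points of `F = 0`,
* the polynomials `h(x) (f₀(x) + ∑ y_j f_j(x)) ^ a`, `x = (x₁, x₂)`, with arbitrary `h`, `f₀`, `f_j` and
  `a ≥ 1`; in particular all the polynomials in two variables, and all the polynomials of degree at
  most one in all but two variables,
* with `G` the suspension `z ^ d + G`, `d ≥ 2`, and the powers `G ^ k`.

We prove the monodromy conjecture in its strong form for the local topological zeta functions,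
also for the twisted ones, of all the germs `f` which become polynomials in `𝓢` in suitable formal
coordinates, up to a unit: every pole is a root of the local Bernstein-Sato polynomial of `f`. By
the splitting lemma, this includes all germs `f ∈ 𝔪 ^ 2` whose Hessian has corank at most two, in any
number of variables (`f = g(x₁, x₂) + x₃ ^ 2 + ⋯ + x_N ^ 2`), also if the singularity is not isolated.

The zeta functions are part of the definition of the class (`SusZeta`): those of
`h(x) (f₀(x) + ∑ y_j f_j(x)) ^ a` are computed by blowing up points of the plane (`PointZeta`), and those
of `z ^ d + G` are given by the suspension formula (`suspZ`) of Artal Bartolo, Cassou-Noguès, Luengo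
and Melle, in terms of all the twisted zeta functions of `G`.

Method: if `b(s₀) ≠ 0`, then the functional equation of `F = z ^ d + G` shows that `H(x, 0) G ^ (s₀ + 1/d)`
is in the module over the Weyl algebra which is generated by `G ^ (s₀ + 1/d + 1)` and the
`(∂_i G) G ^ (s₀ + 1/d)` (integrate over `z`: `z ^ (d l) F ^ (s - m)` becomes
`Γ`-factors times `G ^ (s + 1/d + l - m)`), for every polynomial `G` (`susp`). This statement for the
number `s₀ + 1/d` only, which also makes sense at `-1`, where it means that the reduced Bernstein-Sato
polynomial does not vanish, is enough for the poles of all the twisted zeta functions of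
`h (f₀ + ∑ y_j f_j) ^ a` at this number (`point_reg`, `point_simple`), and for the induction
(`sus_good`).
-/

namespace Pool.Agent.Results.MP_aa7fc1_ag.SuspensionGerms

open Pool.Agent.N103.V
open Pool.Agent.Y229.PS (IsFormalBFunction)

/-- **The strong monodromy conjecture for the local topological zeta functions of iterated
suspensions of the functions `h(x₁, x₂) (f₀(x₁, x₂) + ∑ y_j f_j(x₁, x₂)) ^ a`.**

Let the formal power series `f` (for example the germ of a holomorphic function) become the
polynomial `F` in suitable formal coordinates at the origin, up to a unit (`BecomesAt`), and let
`SusZeta σ F 0 Z`, that is, `F` is in the class `𝓢`, and `Z e`, `e ≥ 1`, is its `e`-th twisted local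
topological zeta function at the origin, and so the one of `f`;
`Z 1` is the local topological zeta function. Let `b` satisfy `IsFormalBFunction f b`:
`b(s) f ^ s = P(s) f ^ (s + 1)` for a differential operator `P(s)` with formal power series as
coefficients, polynomial in `s`. Then every pole of `Z e` is a root of `b`. -/
theorem result {N : ℕ} (f : MvPowerSeries (Fin N) ℂ) {σ : Type} (F : MvPolynomial σ ℂ)
    (hf : BecomesAt f F) (Z : ℕ → RatFunc ℂ) (hZ : SusZeta σ F 0 Z) (b : Polynomial ℂ)
    (hb : IsFormalBFunction f b) (e : ℕ) (he : 1 ≤ e) (s₀ : ℂ)
    (hs₀ : (Z e).denom.eval s₀ = 0) : b.eval s₀ = 0 :=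
  germ_local f F hf Z hZ b hb e he s₀ hs₀

end Pool.Agent.Results.MP_aa7fc1_ag.SuspensionGerms
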